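import Pool.Agent.W842.SP.Recur

/-!
# Sums and products in two colours up to a set that is not piecewise syndetic
-/

set_option autoImplicit false

namespace Pool.Agent.W842.SP

open Combinatorics Hindman Filter

attribute [local instance] Ultrafilter.add Ultrafilter.addSemigroup

/-- there is an idempotent ultrafilter all of whose members are piecewise syndetic -/
theorem exists_idem : ∃ p : Ultrafilter ℕ, p + p = p ∧ ∀ A ∈ p, PS A := by
  classical
  set s : Set (Ultrafilter ℕ) := {U | ∀ A : Set ℕ, ¬ PS A → A ∉ U} with hs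
  have hclosed : IsClosed s := by
    have : s = ⋂ (A : Set ℕ) (_ : ¬ PS A), {U : Ultrafilter ℕ | A ∈ U}ᶜ := by
      ext U
      simp only [hs, Set.mem_ofPred_eq, Set.mem_iInter, Set.mem_compl_iff]
    rw [this]
    exact isClosed_iInter (fun A => isClosed_iInter (fun _ =>
      (ultrafilter_isOpen_basic A).isClosed_compl))
  have hne : s.Nonempty := by
    let F : Filter ℕ :=
      { sets := {A | ¬ PS Aᶜ}
        univ_sets := by
          simp only [Set.mem_ofPred_eq, Set.compl_univ]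
          exact not_PS_empty
        sets_of_superset := by
          intro A B hA hAB hB
          exact hA (hB.mono (Set.compl_subset_compl.2 hAB))
        inter_sets := by
          intro A B hA hB hAB
          rw [Set.compl_inter] at hAB
          rcases hAB.union with h | h
          · exact hA h
          · exact hB h }
    have hF : ∀ A : Set ℕ, A ∈ F ↔ ¬ PS Aᶜ := fun A => Iff.rfl
    have hFne : F.NeBot := by
      rw [Filter.neBot_iff]
      intro hbot
      rw [← Filter.empty_mem_iff_bot, hF, Set.compl_empty] at hbot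
      exact hbot PS_univ
    refine ⟨Ultrafilter.of F, ?_⟩
    intro A hA hAU
    have h1 : Aᶜ ∈ F := by rw [hF, compl_compl]; exact hA
    have h2 : Aᶜ ∈ Ultrafilter.of F := Ultrafilter.of_le F h1
    exact Ultrafilter.compl_notMem_iff.2 hAU h2
  obtain ⟨p, hp, hpp⟩ := exists_idempotent_in_compact_add_subsemigroup
    (M := Ultrafilter ℕ) Ultrafilter.continuous_add_left s hne hclosed.isCompact (by
      intro U hU V hV A hA hAUV
      have h1 : ∀ᶠ m in (U : Filter ℕ), ∀ᶠ m' in (V : Filter ℕ), m + m' ∈ A := hAUV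
      obtain ⟨m, hm⟩ := h1.exists
      have h2 : {m' | m' + m ∈ A} ∈ V := by
        have : {m' | m' + m ∈ A} = {m' | m + m' ∈ A} := by
          ext m'; simp only [Set.mem_ofPred_eq, add_comm]
        rw [this]
        exact hm
      apply hV _ _ h2
      intro h3
      exact hA h3.shift)
  refine ⟨p, hpp, ?_⟩
  intro A hA
  by_contra hcon
  exact hp A hcon hA

theorem idem_dvd {p : Ultrafilter ℕ} (hp : p + p = p) {d : ℕ} (hd : 0 < d) :
    ∀ᶠ n in (p : Filter ℕ), d ∣ n := by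
  classical
  have : NeZero d := ⟨by omega⟩
  -- the residue class of the ultrafilter
  have h1 : ∃ r : ZMod d, ∀ᶠ n in (p : Filter ℕ), ((n : ℕ) : ZMod d) = r := by
    have h2 : (⋃ r ∈ (Set.univ : Set (ZMod d)), {n : ℕ | (n : ZMod d) = r}) ∈ p := by
      have : (⋃ r ∈ (Set.univ : Set (ZMod d)), {n : ℕ | (n : ZMod d) = r}) = Set.univ := by
        ext n; simp
      rw [this]
      exact Filter.univ_mem
    rw [Ultrafilter.finite_biUnion_mem_iff Set.finite_univ] at h2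
    obtain ⟨r, _, hr⟩ := h2
    exact ⟨r, hr⟩
  obtain ⟨r, hr⟩ := h1
  have h2 : ∀ᶠ n in ((p + p : Ultrafilter ℕ) : Filter ℕ), ((n : ℕ) : ZMod d) = r := by
    rw [hp]; exact hr
  rw [Ultrafilter.eventually_add] at h2
  obtain ⟨a, ha, ha'⟩ := (h2.and hr).exists
  obtain ⟨b, hb, hb'⟩ := (ha.and hr).exists
  have h3 : r = 0 := by
    push_cast at hb
    rw [ha', hb'] at hb
    have : r + r = r + 0 := by rw [hb, add_zero]
    exact add_left_cancel this
  filter_upwards [hr] with n hn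
  rw [h3] at hn
  exact (ZMod.natCast_eq_zero_iff n d).1 hn

theorem idem_dil {p : Ultrafilter ℕ} (hp : p + p = p) (c : ℕ) :
    p.map (fun n => c * n) + p.map (fun n => c * n) = p.map (fun n => c * n) := by
  apply Ultrafilter.coe_inj.1
  apply Filter.ext'
  intro P
  rw [Ultrafilter.eventually_add]
  have h1 : (∀ᶠ n in (p : Filter ℕ), ∀ᶠ n' in (p : Filter ℕ), P (c * n + c * n')) ↔
      ∀ᶠ n in (p : Filter ℕ), P (c * n) := by
    conv_rhs => rw [← hp]
    rw [Ultrafilter.eventually_add]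
    simp only [Nat.mul_add]
  exact h1

theorem idem_div {p : Ultrafilter ℕ} (hp : p + p = p) {c : ℕ} (hc : 0 < c) :
    p.map (fun n => n / c) + p.map (fun n => n / c) = p.map (fun n => n / c) := by
  apply Ultrafilter.coe_inj.1
  apply Filter.ext'
  intro P
  rw [Ultrafilter.eventually_add]
  have h1 : (∀ᶠ n in (p : Filter ℕ), ∀ᶠ n' in (p : Filter ℕ), P (n / c + n' / c)) ↔
      ∀ᶠ n in (p : Filter ℕ), P (n / c) := by
    conv_rhs => rw [← hp]
    rw [Ultrafilter.eventually_add]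
    apply Filter.eventually_congr
    filter_upwards [idem_dvd hp hc] with n hn
    apply Filter.eventually_congr
    exact Filter.Eventually.of_forall (fun n' => by rw [Nat.add_div_of_dvd_right hn])
  exact h1

/-- no pattern in `A` above `N` -/
def NoPat (A : Set ℕ) (N : ℕ) : Prop :=
  ∀ x y, N < x → N < y → x ≠ y → x ∈ A → y ∈ A → x + y ∈ A → x * y ∉ A

/-- the rest -/
def Rest (A B : Set ℕ) (m : ℕ) : Set ℕ := {n | m ∣ n ∧ n ∉ A ∧ n ∉ B}

theorem Rest_symm (A B : Set ℕ) (m : ℕ) : Rest A B m = Rest B A m := by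
  ext n
  simp only [Rest, Set.mem_ofPred_eq]
  tauto

theorem key {A B : Set ℕ} {m N : ℕ} (hA : NoPat A N) (hB : NoPat B N)
    (hS : ¬ PS (Rest A B m)) {z y' : ℕ} (hz : N < z) (hzA : z ∈ A) (hy0 : 0 < y')
    (hyB : z * y' ∈ B)
    (hPS : PS {a | a ∈ {a | m ∣ a ∧ a ∈ A ∧ a + z ∈ A} ∧
      a + y' ∈ {a | m ∣ a ∧ a ∈ A ∧ a + z ∈ A} ∧
      a + z ^ 2 * y' ∈ {a | m ∣ a ∧ a ∈ A ∧ a + z ∈ A}}) :
    z * (z * y') ∉ A := by
  intro hcon
  have hz0 : 0 < z := by omega
  have hzy : z ≤ z * y' := Nat.le_mul_of_pos_right z hy0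
  -- exceptional sets
  set P₁ := {a | a ∈ {a | m ∣ a ∧ a ∈ A ∧ a + z ∈ A} ∧
      a + y' ∈ {a | m ∣ a ∧ a ∈ A ∧ a + z ∈ A} ∧
      a + z ^ 2 * y' ∈ {a | m ∣ a ∧ a ∈ A ∧ a + z ∈ A}} with hP₁
  set E₁ : Set ℕ := {a | z * a ∈ Rest A B m} with hE₁
  set E₂ : Set ℕ := {a | a + y' ∈ E₁} with hE₂
  set E₃ : Set ℕ := {a | z * (z * y') * a ∈ Rest A B m} with hE₃
  have n1 : ¬ PS E₁ := fun h => hS (h.dilate hz0)
  have n2 : ¬ PS E₂ := fun h => n1 h.shift
  have n3 : ¬ PS E₃ := fun h => hS (h.dilate (by positivity))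
  have hgood : PS (P₁ \ (E₁ ∪ E₂ ∪ E₃)) := by
    have h1 : PS ((P₁ \ (E₁ ∪ E₂ ∪ E₃)) ∪ ((E₁ ∪ E₂) ∪ E₃)) := by
      refine hPS.mono ?_
      intro a ha
      by_cases h : a ∈ E₁ ∪ E₂ ∪ E₃
      · exact Or.inr h
      · exact Or.inl ⟨ha, h⟩
    rcases h1.union with h | h
    · exact h
    · exfalso
      rcases h.union with h | h
      · rcases h.union with h | h
        · exact n1 h
        · exact n2 h
      · exact n3 h
  obtain ⟨a, hagt, ⟨⟨ha1, ha2, ha3⟩, ⟨hb1, hb2, hb3⟩, ⟨_, hc2, _⟩⟩, haE⟩ :=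
    hgood.exists_gt (z * (z * y') + N)
  simp only [Set.mem_union, not_or] at haE
  obtain ⟨⟨hne1, hne2⟩, hne3⟩ := haE
  have hzzy : z * y' ≤ z * (z * y') := Nat.le_mul_of_pos_left _ hz0
  -- z a ∈ B
  have hza : z * a ∉ A := hA z a hz (by omega) (by omega) hzA ha2 (by rw [add_comm]; exact ha3)
  have hzaB : z * a ∈ B := by
    by_contra h
    exact hne1 ⟨Dvd.dvd.mul_left ha1 z, hza, h⟩
  have hzb : z * (a + y') ∉ A := hA z (a + y') hz (by omega) (by omega) hzA hb2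
    (by rw [add_comm]; exact hb3)
  have hzbB : z * (a + y') ∈ B := by
    by_contra h
    exact hne2 ⟨Dvd.dvd.mul_left hb1 z, hzb, h⟩
  have haz : a ≤ z * a := Nat.le_mul_of_pos_left a hz0
  have hf1 : z * y' * (z * a) ∉ B := by
    apply hB (z * y') (z * a) (by omega) (by omega) (by omega) hyB hzaB
    have e : z * y' + z * a = z * (a + y') := by ring
    rw [e]
    exact hzbB
  have hf2 : z * (z * y') * a ∉ A := by
    apply hA (z * (z * y')) a (by omega) (by omega) (by omega) hcon ha2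
    have e : z * (z * y') + a = a + z ^ 2 * y' := by ring
    rw [e]
    exact hc2
  apply hne3
  refine ⟨Dvd.dvd.mul_left ha1 _, hf2, ?_⟩
  have e : z * (z * y') * a = z * y' * (z * a) := by ring
  rw [e]
  exact hf1

theorem aux {A B : Set ℕ} {m N : ℕ} (hm : 0 < m) (hA : NoPat A N) (hB : NoPat B N)
    (hS : ¬ PS (Rest A B m)) {p : Ultrafilter ℕ} (hp : p + p = p) (hpPS : ∀ C ∈ p, PS C)
    (hAp : ∀ᶠ n in (p : Filter ℕ), n ∈ A) : False := by
  classical
  have hgt : ∀ K : ℕ, ∀ᶠ n in (p : Filter ℕ), K < n := by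
    intro K
    by_contra hcon
    rw [← Ultrafilter.eventually_not] at hcon
    obtain ⟨a, ha, ha'⟩ := (hpPS _ hcon).exists_gt K
    exact ha' ha
  -- no multiple of the ultrafilter contains the rest
  have hrest : ∀ c : ℕ, 0 < c → ∀ᶠ w in (p : Filter ℕ), c * w ∉ Rest A B m := by
    intro c hc
    by_contra hcon
    rw [← Ultrafilter.eventually_not] at hcon
    simp only [not_not] at hcon
    exact hS ((hpPS _ hcon).dilate hc)
  have hdm : ∀ᶠ w in (p : Filter ℕ), m ∣ w := idem_dvd hp hm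
  -- the good elements
  have hgood : ∀ᶠ z in (p : Filter ℕ), z ∈ A ∧ N < z ∧ (∀ᶠ w in (p : Filter ℕ), z + w ∈ A) ∧
      ∀ᶠ w in (p : Filter ℕ), z * w ∈ B := by
    have h1 : ∀ᶠ z in (p : Filter ℕ), ∀ᶠ w in (p : Filter ℕ), z + w ∈ A := by
      rw [← Ultrafilter.eventually_add, hp]
      exact hAp
    filter_upwards [hAp, hgt N, h1] with z hzA hzN hzw
    refine ⟨hzA, hzN, hzw, ?_⟩
    have h2 : ∀ᶠ w in (p : Filter ℕ), z * w ∉ A := by
      by_contra hcon
      rw [← Ultrafilter.eventually_not] at hcon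
      simp only [not_not] at hcon
      obtain ⟨w, ⟨⟨hw1, hw2⟩, hw3⟩, hw4⟩ := (((hcon.and hzw).and hAp).and (hgt z)).exists
      exact hA z w hzN (by omega) (by omega) hzA hw3 hw2 hw1
    filter_upwards [h2, hrest z (by omega), hdm] with w hw1 hw2 hw3
    by_contra hcon
    exact hw2 ⟨Dvd.dvd.mul_left hw3 z, hw1, hcon⟩
  obtain ⟨z, hzA, hzN, hzw, hzB⟩ := hgood.exists
  have hz0 : 0 < z := by omega
  -- the base set for z
  have hP0 : PS {a | m ∣ a ∧ a ∈ A ∧ a + z ∈ A} := by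
    apply hpPS
    filter_upwards [hdm, hAp, hzw] with a h1 h2 h3
    exact ⟨h1, h2, by rw [add_comm]; exact h3⟩
  have hB' : PS {b | m ∣ b ∧ b ∈ B} := by
    apply PS.dilate hz0
    apply hpPS
    filter_upwards [hdm, hzB] with a h1 h2
    exact ⟨Dvd.dvd.mul_left h1 z, h2⟩
  -- the second element
  have hret : ∀ᶠ z' in (p : Filter ℕ), PS {b | m ∣ b ∧ b ∈ B ∧ b + z * z' ∈ B} := by
    have h1 := recur hB' _ (idem_dil hp z) 1
    have h2 : ∀ᶠ z' in (p : Filter ℕ), PS {a | a ∈ {b | m ∣ b ∧ b ∈ B} ∧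
      a + z * z' ∈ {b | m ∣ b ∧ b ∈ B} ∧ a + 1 * (z * z') ∈ {b | m ∣ b ∧ b ∈ B}} := h1
    filter_upwards [h2] with z' h3
    refine h3.mono ?_
    rintro b ⟨⟨h4, h5⟩, ⟨_, h6⟩, _⟩
    exact ⟨h4, h5, h6⟩
  obtain ⟨z', ⟨⟨⟨hz'A, hz'N, hz'w, hz'B⟩, hz'd⟩, hz'z⟩, hz'r⟩ :=
    (((hgood.and (idem_dvd hp hz0)).and hzB).and hret).exists
  obtain ⟨c, hc⟩ := hz'd
  have hc0 : 0 < c := by
    rcases Nat.eq_zero_or_pos c with h | h
    · rw [h] at hc; omega
    · exact h
  set v := z * z' with hv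
  have hv0 : 0 < v := by
    have : 0 < z' := by omega
    positivity
  have hvN : N < v := by
    have : z * 1 ≤ z * z' := Nat.mul_le_mul_left z (by omega)
    omega
  -- first conclusion
  have c1 : ∀ᶠ w in (p : Filter ℕ), v * w ∉ A := by
    have h1 := recur hP0 _ (idem_dil hp c) (z ^ 2)
    have h2 : ∀ᶠ w in (p : Filter ℕ), PS {a | a ∈ {a | m ∣ a ∧ a ∈ A ∧ a + z ∈ A} ∧
      a + c * w ∈ {a | m ∣ a ∧ a ∈ A ∧ a + z ∈ A} ∧
      a + z ^ 2 * (c * w) ∈ {a | m ∣ a ∧ a ∈ A ∧ a + z ∈ A}} := h1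
    filter_upwards [h2, hz'B, hgt 0] with w hw1 hw2 hw3
    have hcw : 0 < c * w := by positivity
    have e1 : z * (c * w) = z' * w := by rw [hc]; ring
    have h3 := key hA hB hS hzN hzA hcw (by rw [e1]; exact hw2) hw1
    have e2 : z * (z * (c * w)) = v * w := by rw [hv, hc]; ring
    rw [e2] at h3
    exact h3
  -- second conclusion
  have c2 : ∀ᶠ w in (p : Filter ℕ), v * w ∉ B := by
    have h1 := recur hz'r _ (idem_div hp hv0) (v ^ 2)
    have h2 : ∀ᶠ w in (p : Filter ℕ), PS {a | a ∈ {b | m ∣ b ∧ b ∈ B ∧ b + v ∈ B} ∧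
      a + w / v ∈ {b | m ∣ b ∧ b ∈ B ∧ b + v ∈ B} ∧
      a + v ^ 2 * (w / v) ∈ {b | m ∣ b ∧ b ∈ B ∧ b + v ∈ B}} := h1
    filter_upwards [h2, hAp, idem_dvd hp hv0, hgt 0] with w hw1 hw2 hw3 hw4
    obtain ⟨u, hu⟩ := hw3
    have hu0 : 0 < u := by
      rcases Nat.eq_zero_or_pos u with h | h
      · rw [h] at hu; omega
      · exact h
    have hwu : w / v = u := by rw [hu]; exact Nat.mul_div_cancel_left u hv0
    rw [hwu] at hw1
    have hS' : ¬ PS (Rest B A m) := by rw [← Rest_symm]; exact hS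
    have h3 := key hB hA hS' hvN hz'z hu0 (by rw [← hu]; exact hw2) hw1
    rw [← hu] at h3
    exact h3
  obtain ⟨w, ⟨⟨hw1, hw2⟩, hw3⟩, hw4⟩ := (((c1.and c2).and (hrest v hv0)).and hdm).exists
  exact hw3 ⟨Dvd.dvd.mul_left hw4 v, hw1, hw2⟩

/-- a pattern above `N` -/
def HasPat (A : Set ℕ) (N : ℕ) : Prop :=
  ∃ x y, N < x ∧ x < y ∧ x ∈ A ∧ y ∈ A ∧ x + y ∈ A ∧ x * y ∈ A

theorem NoPat_of_not {A : Set ℕ} {N : ℕ} (h : ¬ HasPat A N) : NoPat A N := by
  intro x y hx hy hxy hxA hyA hs hpr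
  rcases lt_or_gt_of_ne hxy with h1 | h1
  · exact h ⟨x, y, hx, h1, hxA, hyA, hs, hpr⟩
  · exact h ⟨y, x, hy, h1, hyA, hxA, by rw [add_comm]; exact hs, by rw [mul_comm]; exact hpr⟩

theorem main {A B : Set ℕ} {m : ℕ} (hm : 0 < m) (hS : ¬ PS (Rest A B m)) (N : ℕ) :
    HasPat A N ∨ HasPat B N := by
  by_contra hcon
  push Not at hcon
  have hA := NoPat_of_not hcon.1
  have hB := NoPat_of_not hcon.2
  obtain ⟨p, hp, hpPS⟩ := exists_idem
  by_cases hAp : ∀ᶠ n in (p : Filter ℕ), n ∈ A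
  · exact aux hm hA hB hS hp hpPS hAp
  by_cases hBp : ∀ᶠ n in (p : Filter ℕ), n ∈ B
  · exact aux hm hB hA (by rw [← Rest_symm]; exact hS) hp hpPS hBp
  · rw [← Ultrafilter.eventually_not] at hAp hBp
    apply hS
    apply hpPS
    filter_upwards [hAp, hBp, idem_dvd hp hm] with n h1 h2 h3
    exact ⟨h3, h1, h2⟩

end Pool.Agent.W842.SP
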