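import Pool.Agent.W842.SP.Trans

/-!
# The theorem for a transient rest
-/

set_option autoImplicit false

namespace Pool.Agent.W842.SP

open Combinatorics Hindman Filter

attribute [local instance] Ultrafilter.add Ultrafilter.addSemigroup

/-- the rest -/
def Rst (A B : Set ℕ) : Set ℕ := {n | n ∉ A ∧ n ∉ B}

theorem Rst_symm (A B : Set ℕ) : Rst A B = Rst B A := by
  ext n
  simp only [Rst, Set.mem_ofPred_eq]
  tauto

theorem keyT {A B : Set ℕ} {N : ℕ} (hA : NoPat A N) (hB : NoPat B N)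
    {z y' : ℕ} (hz : N < z) (hzA : z ∈ A) (hy0 : 0 < y') (hyB : z * y' ∈ B)
    {P : Set ℕ} (hP : Free (Rst A B) P) (hPA : ∀ a ∈ P, a ∈ A ∧ a + z ∈ A)
    (hPS : PS {a | a ∈ P ∧ a + y' ∈ P ∧ a + z ^ 2 * y' ∈ P}) :
    z * (z * y') ∉ A := by
  intro hcon
  have hz0 : 0 < z := by omega
  have hzy : z ≤ z * y' := Nat.le_mul_of_pos_right z hy0
  set P₁ := {a | a ∈ P ∧ a + y' ∈ P ∧ a + z ^ 2 * y' ∈ P} with hP₁
  set E₁ : Set ℕ := {a | a ∈ P ∧ z * a ∈ Rst A B} with hE₁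
  set E₂ : Set ℕ := {a | a + y' ∈ E₁} with hE₂
  set E₃ : Set ℕ := {a | a ∈ P ∧ z * (z * y') * a ∈ Rst A B} with hE₃
  have n1 : ¬ PS E₁ := hP.2 z hz0
  have n2 : ¬ PS E₂ := fun h => n1 h.shift
  have n3 : ¬ PS E₃ := hP.2 _ (by positivity)
  have hgood : PS (P₁ \ (E₁ ∪ E₂ ∪ E₃)) := by
    have h1 : PS ((P₁ \ (E₁ ∪ E₂ ∪ E₃)) ∪ ((E₁ ∪ E₂) ∪ E₃)) := by
      refine hPS.mono ?_
      intro a ha
      by_cases h : a ∈ E₁ ∪ E₂ ∪ E₃
      · exact Or.inr h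
      · exact Or.inl ⟨ha, h⟩
    rcases h1.union with h | h
    · exact h
    · exfalso
      rcases h.union with h | h
      · rcases h.union with h | h
        · exact n1 h
        · exact n2 h
      · exact n3 h
  obtain ⟨a, hagt, ⟨ha, hb, hc⟩, haE⟩ := hgood.exists_gt (z * (z * y') + N)
  simp only [Set.mem_union, not_or] at haE
  obtain ⟨⟨hne1, hne2⟩, hne3⟩ := haE
  have ha2 := (hPA a ha).1
  have ha3 := (hPA a ha).2
  have hb2 := (hPA _ hb).1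
  have hb3 := (hPA _ hb).2
  have hc2 := (hPA _ hc).1
  have hzzy : z * y' ≤ z * (z * y') := Nat.le_mul_of_pos_left _ hz0
  have hza : z * a ∉ A := hA z a hz (by omega) (by omega) hzA ha2 (by rw [add_comm]; exact ha3)
  have hzaB : z * a ∈ B := by
    by_contra h
    exact hne1 ⟨ha, hza, h⟩
  have hzb : z * (a + y') ∉ A := hA z (a + y') hz (by omega) (by omega) hzA hb2
    (by rw [add_comm]; exact hb3)
  have hzbB : z * (a + y') ∈ B := by
    by_contra h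
    exact hne2 ⟨hb, hzb, h⟩
  have haz : a ≤ z * a := Nat.le_mul_of_pos_left a hz0
  have hf1 : z * y' * (z * a) ∉ B := by
    apply hB (z * y') (z * a) (by omega) (by omega) (by omega) hyB hzaB
    have e : z * y' + z * a = z * (a + y') := by ring
    rw [e]
    exact hzbB
  have hf2 : z * (z * y') * a ∉ A := by
    apply hA (z * (z * y')) a (by omega) (by omega) (by omega) hcon ha2
    have e : z * (z * y') + a = a + z ^ 2 * y' := by ring
    rw [e]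
    exact hc2
  apply hne3
  refine ⟨ha, hf2, ?_⟩
  have e : z * (z * y') * a = z * y' * (z * a) := by ring
  rw [e]
  exact hf1

/-- from a free subset of `A` and a multiplier in `A` to a free subset of `B` -/
theorem free_step {A B : Set ℕ} {N : ℕ} (hA : NoPat A N) {z : ℕ} (hz : N < z) (hzA : z ∈ A)
    {P : Set ℕ} (hP : Free (Rst A B) P) (hPA : P ⊆ A)
    (hPS : PS {a | a ∈ P ∧ a + z ∈ P}) : ∃ Q, Free (Rst A B) Q ∧ Q ⊆ B := by
  have hz0 : 0 < z := by omega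
  have h1 : PS {a | (a ∈ P ∧ a + z ∈ P) ∧ z * a ∈ B} := by
    have h2 : PS (({a | (a ∈ P ∧ a + z ∈ P) ∧ z * a ∈ B} ∪ {a | a ∈ P ∧ z * a ∈ Rst A B}) ∪
        {a | a ∈ P ∧ a ≤ z}) := by
      refine hPS.mono ?_
      rintro a ⟨ha, ha'⟩
      by_cases haz : a ≤ z
      · exact Or.inr ⟨ha, haz⟩
      left
      by_cases hB : z * a ∈ B
      · exact Or.inl ⟨⟨ha, ha'⟩, hB⟩
      · right
        refine ⟨ha, ?_, hB⟩
        exact hA z a hz (by omega) (by omega) hzA (hPA ha) (by rw [add_comm]; exact hPA ha')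
    rcases h2.union with h | h
    · rcases h.union with h | h
      · exact h
      · exact absurd h (hP.2 z hz0)
    · exfalso
      obtain ⟨a, ha, ha'⟩ := h.exists_gt z
      exact absurd ha'.2 (by omega)
  have h2 : Free (Rst A B) {a | (a ∈ P ∧ a + z ∈ P) ∧ z * a ∈ B} :=
    hP.sub h1 (fun a ha => ha.1.1)
  refine ⟨_, h2.dil hz0, ?_⟩
  rintro n ⟨a, ha, rfl⟩
  exact ha.2

theorem recur_one {P : Set ℕ} (hP : PS P) (q : Ultrafilter ℕ) (hq : q + q = q) :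
    ∀ᶠ n in (q : Filter ℕ), PS {a | a ∈ P ∧ a + n ∈ P} := by
  filter_upwards [recur hP q hq 1] with n hn
  refine hn.mono ?_
  rintro a ⟨h1, h2, _⟩
  exact ⟨h1, h2⟩

theorem auxT {A B : Set ℕ} {N : ℕ} (hA : NoPat A N) (hB : NoPat B N)
    {P : Set ℕ} (hP : Free (Rst A B) P) {p : Ultrafilter ℕ} (hp : p + p = p)
    (hpPS : ∀ C ∈ p, PS C)
    (hrest : ∀ c : ℕ, 0 < c → ∀ᶠ w in (p : Filter ℕ), c * w ∉ Rst A B)
    (hAp : ∀ᶠ n in (p : Filter ℕ), n ∈ A) : False := by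
  classical
  have hgt : ∀ K : ℕ, ∀ᶠ n in (p : Filter ℕ), K < n := by
    intro K
    by_contra hcon
    rw [← Ultrafilter.eventually_not] at hcon
    obtain ⟨a, ha, ha'⟩ := (hpPS _ hcon).exists_gt K
    exact ha' ha
  have hgood : ∀ᶠ z in (p : Filter ℕ), z ∈ A ∧ N < z ∧
      ∀ᶠ w in (p : Filter ℕ), z * w ∈ B := by
    have h1 : ∀ᶠ z in (p : Filter ℕ), ∀ᶠ w in (p : Filter ℕ), z + w ∈ A := by
      rw [← Ultrafilter.eventually_add, hp]
      exact hAp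
    filter_upwards [hAp, hgt N, h1] with z hzA hzN hzw
    refine ⟨hzA, hzN, ?_⟩
    have h2 : ∀ᶠ w in (p : Filter ℕ), z * w ∉ A := by
      by_contra hcon
      rw [← Ultrafilter.eventually_not] at hcon
      simp only [not_not] at hcon
      obtain ⟨w, ⟨⟨hw1, hw2⟩, hw3⟩, hw4⟩ := (((hcon.and hzw).and hAp).and (hgt z)).exists
      exact hA z w hzN (by omega) (by omega) hzA hw3 hw2 hw1
    filter_upwards [h2, hrest z (by omega)] with w hw1 hw2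
    by_contra hcon
    exact hw2 ⟨hw1, hcon⟩
  -- free sets inside A and inside B
  have hAB : (∃ Q, Free (Rst A B) Q ∧ Q ⊆ A) ∨ (∃ Q, Free (Rst A B) Q ∧ Q ⊆ B) := by
    have h1 : PS (({a | a ∈ P ∧ a ∈ A} ∪ {a | a ∈ P ∧ a ∈ B}) ∪ {a | a ∈ P ∧ 1 * a ∈ Rst A B}) := by
      refine hP.1.mono ?_
      intro a ha
      by_cases h1 : a ∈ A
      · exact Or.inl (Or.inl ⟨ha, h1⟩)
      · by_cases h2 : a ∈ B
        · exact Or.inl (Or.inr ⟨ha, h2⟩)
        · exact Or.inr ⟨ha, by rw [one_mul]; exact ⟨h1, h2⟩⟩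
    rcases h1.union with h | h
    · rcases h.union with h | h
      · exact Or.inl ⟨_, hP.sub h (fun a ha => ha.1), fun a ha => ha.2⟩
      · exact Or.inr ⟨_, hP.sub h (fun a ha => ha.1), fun a ha => ha.2⟩
    · exact absurd h (hP.2 1 one_pos)
  have hAex : (∃ Q, Free (Rst A B) Q ∧ Q ⊆ B) → ∃ Q, Free (Rst A B) Q ∧ Q ⊆ A := by
    rintro ⟨Q, hQ, hQB⟩
    obtain ⟨z, hzA, hzN, hzB⟩ := hgood.exists
    have h1 : ∀ᶠ w in (p : Filter ℕ), PS {a | a ∈ Q ∧ a + z * w ∈ Q} :=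
      recur_one hQ.1 _ (idem_dil hp z)
    obtain ⟨w, ⟨hw1, hw2⟩, hw3⟩ := ((h1.and hzB).and (hgt 0)).exists
    have hzw : N < z * w := by
      have : z * 1 ≤ z * w := Nat.mul_le_mul_left z (by omega)
      omega
    rw [Rst_symm] at hQ
    obtain ⟨R, hR, hRA⟩ := free_step hB hzw hw2 hQ hQB hw1
    rw [← Rst_symm] at hR
    exact ⟨R, hR, hRA⟩
  have hBex : (∃ Q, Free (Rst A B) Q ∧ Q ⊆ A) → ∃ Q, Free (Rst A B) Q ∧ Q ⊆ B := by
    rintro ⟨Q, hQ, hQA⟩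
    obtain ⟨z, ⟨hzA, hzN, _⟩, hz⟩ := (hgood.and (recur_one hQ.1 p hp)).exists
    exact free_step hA hzN hzA hQ hQA hz
  obtain ⟨⟨P₁, hP₁, hP₁A⟩, ⟨Q₁, hQ₁, hQ₁B⟩⟩ : (∃ Q, Free (Rst A B) Q ∧ Q ⊆ A) ∧
      ∃ Q, Free (Rst A B) Q ∧ Q ⊆ B := by
    rcases hAB with h | h
    · exact ⟨h, hBex h⟩
    · exact ⟨hAex h, h⟩
  -- the first multiplier
  obtain ⟨z, ⟨hzA, hzN, hzB⟩, hzr⟩ := (hgood.and (recur_one hP₁.1 p hp)).exists
  have hz0 : 0 < z := by omega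
  set P0 := {a | a ∈ P₁ ∧ a + z ∈ P₁} with hP0
  have hP0free : Free (Rst A B) P0 := hP₁.sub hzr (fun a ha => ha.1)
  have hP0A : ∀ a ∈ P0, a ∈ A ∧ a + z ∈ A := fun a ha => ⟨hP₁A ha.1, hP₁A ha.2⟩
  -- the second multiplier
  have hret : ∀ᶠ z' in (p : Filter ℕ), PS {b | b ∈ Q₁ ∧ b + z * z' ∈ Q₁} :=
    recur_one hQ₁.1 _ (idem_dil hp z)
  obtain ⟨z', ⟨⟨⟨hz'A, hz'N, hz'B⟩, hz'd⟩, hz'z⟩, hz'r⟩ :=
    (((hgood.and (idem_dvd hp hz0)).and hzB).and hret).exists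
  obtain ⟨c, hc⟩ := hz'd
  have hc0 : 0 < c := by
    rcases Nat.eq_zero_or_pos c with h | h
    · rw [h] at hc; omega
    · exact h
  set v := z * z' with hv
  have hv0 : 0 < v := by
    have : 0 < z' := by omega
    positivity
  have hvN : N < v := by
    have : z * 1 ≤ z * z' := Nat.mul_le_mul_left z (by omega)
    omega
  set Q0 := {b | b ∈ Q₁ ∧ b + v ∈ Q₁} with hQ0
  have hQ0free : Free (Rst B A) Q0 := by
    rw [← Rst_symm]
    exact hQ₁.sub hz'r (fun a ha => ha.1)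
  have hQ0B : ∀ a ∈ Q0, a ∈ B ∧ a + v ∈ B := fun a ha => ⟨hQ₁B ha.1, hQ₁B ha.2⟩
  have c1 : ∀ᶠ w in (p : Filter ℕ), v * w ∉ A := by
    have h1 := recur hP0free.1 _ (idem_dil hp c) (z ^ 2)
    have h2 : ∀ᶠ w in (p : Filter ℕ), PS {a | a ∈ P0 ∧ a + c * w ∈ P0 ∧
      a + z ^ 2 * (c * w) ∈ P0} := h1
    filter_upwards [h2, hz'B, hgt 0] with w hw1 hw2 hw3
    have hcw : 0 < c * w := by positivity
    have e1 : z * (c * w) = z' * w := by rw [hc]; ring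
    have h3 := keyT hA hB hzN hzA hcw (by rw [e1]; exact hw2) hP0free hP0A hw1
    have e2 : z * (z * (c * w)) = v * w := by rw [hv, hc]; ring
    rw [e2] at h3
    exact h3
  have c2 : ∀ᶠ w in (p : Filter ℕ), v * w ∉ B := by
    have h1 := recur hQ0free.1 _ (idem_div hp hv0) (v ^ 2)
    have h2 : ∀ᶠ w in (p : Filter ℕ), PS {a | a ∈ Q0 ∧ a + w / v ∈ Q0 ∧
      a + v ^ 2 * (w / v) ∈ Q0} := h1
    filter_upwards [h2, hAp, idem_dvd hp hv0, hgt 0] with w hw1 hw2 hw3 hw4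
    obtain ⟨u, hu⟩ := hw3
    have hu0 : 0 < u := by
      rcases Nat.eq_zero_or_pos u with h | h
      · rw [h] at hu; omega
      · exact h
    have hwu : w / v = u := by rw [hu]; exact Nat.mul_div_cancel_left u hv0
    rw [hwu] at hw1
    have h3 := keyT hB hA hvN hz'z hu0 (by rw [← hu]; exact hw2) hQ0free hQ0B hw1
    rw [← hu] at h3
    exact h3
  obtain ⟨w, ⟨hw1, hw2⟩, hw3⟩ := ((c1.and c2).and (hrest v hv0)).exists
  exact hw3 ⟨hw1, hw2⟩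

theorem mainT {A B : Set ℕ} (hS : Transient {n | n ∉ A ∧ n ∉ B}) (N : ℕ) :
    HasPat A N ∨ HasPat B N := by
  by_contra hcon
  push Not at hcon
  have hA := NoPat_of_not hcon.1
  have hB := NoPat_of_not hcon.2
  have hS' : Transient (Rst A B) := hS
  obtain ⟨P, hP⟩ := exists_free hS'
  obtain ⟨p, hp, hpPS, hrest⟩ := exists_idem_avoid hS'
  by_cases hAp : ∀ᶠ n in (p : Filter ℕ), n ∈ A
  · exact auxT hA hB hP hp hpPS hrest hAp
  by_cases hBp : ∀ᶠ n in (p : Filter ℕ), n ∈ B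
  · rw [Rst_symm] at hP hrest
    exact auxT hB hA hP hp hpPS hrest hBp
  · rw [← Ultrafilter.eventually_not] at hAp hBp
    obtain ⟨w, ⟨h1, h2⟩, h3⟩ := ((hAp.and hBp).and (hrest 1 one_pos)).exists
    rw [one_mul] at h3
    exact h3 ⟨h1, h2⟩

end Pool.Agent.W842.SP
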