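import Mathlib

/-!
# Piecewise syndetic sets of natural numbers
-/

set_option autoImplicit false

namespace Pool.Agent.W842.SP

/-- `P` is piecewise syndetic: there is a bound `g` such that there are arbitrarily long intervals
all of whose elements `n` have an element of `P` in `[n, n + g]`. -/
def PS (P : Set ℕ) : Prop := ∃ g : ℕ, ∀ L : ℕ, ∃ a : ℕ, ∀ i < L, ∃ t ≤ g, a + i + t ∈ P

theorem PS.mono {P Q : Set ℕ} (h : P ⊆ Q) (hP : PS P) : PS Q := by
  obtain ⟨g, hg⟩ := hP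
  refine ⟨g, fun L => ?_⟩
  obtain ⟨a, ha⟩ := hg L
  refine ⟨a, fun i hi => ?_⟩
  obtain ⟨t, ht, htP⟩ := ha i hi
  exact ⟨t, ht, h htP⟩

theorem not_PS_empty : ¬ PS (∅ : Set ℕ) := by
  rintro ⟨g, hg⟩
  obtain ⟨a, ha⟩ := hg 1
  obtain ⟨t, _, ht⟩ := ha 0 (by omega)
  exact ht

theorem PS_univ : PS (Set.univ : Set ℕ) := ⟨0, fun _ => ⟨0, fun _ _ => ⟨0, le_rfl, trivial⟩⟩⟩

theorem PS.exists_gt {P : Set ℕ} (hP : PS P) (K : ℕ) : ∃ a, K < a ∧ a ∈ P := by
  obtain ⟨g, hg⟩ := hP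
  obtain ⟨a, ha⟩ := hg (K + 2)
  obtain ⟨t, _, ht⟩ := ha (K + 1) (by omega)
  exact ⟨_, by omega, ht⟩

theorem PS.union {P Q : Set ℕ} (h : PS (P ∪ Q)) : PS P ∨ PS Q := by
  by_cases hP : PS P
  · exact Or.inl hP
  right
  obtain ⟨g, hg⟩ := h
  have h1 : ∃ L', ∀ a, ∃ i < L', ∀ t ≤ g, a + i + t ∉ P := by
    by_contra hcon
    push Not at hcon
    exact hP ⟨g, hcon⟩
  obtain ⟨L', hL'⟩ := h1
  refine ⟨L' + g, fun L => ?_⟩
  obtain ⟨a, ha⟩ := hg (L + L')
  refine ⟨a, fun i hi => ?_⟩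
  obtain ⟨i', hi', hno⟩ := hL' (a + i)
  obtain ⟨t, ht, htPQ⟩ := ha (i + i') (by omega)
  refine ⟨i' + t, by omega, ?_⟩
  have e : a + i + (i' + t) = a + (i + i') + t := by ring
  rw [e]
  rcases htPQ with h2 | h2
  · exfalso
    apply hno t ht
    have e2 : a + i + i' + t = a + (i + i') + t := by ring
    rw [e2]
    exact h2
  · exact h2

theorem PS.biUnion {ι : Type*} (s : Finset ι) (P : ι → Set ℕ) (h : PS (⋃ i ∈ s, P i)) :
    ∃ i ∈ s, PS (P i) := by
  classical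
  induction s using Finset.induction_on with
  | empty =>
    exfalso
    apply not_PS_empty
    refine h.mono ?_
    intro x hx
    simp at hx
  | insert j s hj ih =>
    have e : (⋃ i ∈ insert j s, P i) = P j ∪ ⋃ i ∈ s, P i := by
      rw [Finset.set_biUnion_insert]
    rw [e] at h
    rcases h.union with h1 | h1
    · exact ⟨j, Finset.mem_insert_self _ _, h1⟩
    · obtain ⟨i, hi, hi'⟩ := ih h1
      exact ⟨i, Finset.mem_insert_of_mem hi, hi'⟩

theorem PS.shift {P : Set ℕ} {b : ℕ} (h : PS {a | a + b ∈ P}) : PS P := by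
  obtain ⟨g, hg⟩ := h
  refine ⟨g, fun L => ?_⟩
  obtain ⟨a, ha⟩ := hg L
  refine ⟨a + b, fun i hi => ?_⟩
  obtain ⟨t, ht, htP⟩ := ha i hi
  refine ⟨t, ht, ?_⟩
  have e : a + b + i + t = a + i + t + b := by ring
  rw [e]
  exact htP

theorem PS.dilate {P : Set ℕ} {m : ℕ} (hm : 0 < m) (h : PS {a | m * a ∈ P}) : PS P := by
  obtain ⟨g, hg⟩ := h
  refine ⟨m + m * g, fun L => ?_⟩
  obtain ⟨a, ha⟩ := hg (L + 1)
  refine ⟨m * a, fun i hi => ?_⟩
  have h1 : i / m + 1 < L + 1 + 1 := by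
    have := Nat.div_le_self i m
    omega
  have h2 : i / m < L := lt_of_le_of_lt (Nat.div_le_self i m) hi
  obtain ⟨t, ht, htP⟩ := ha (i / m + 1) (by omega)
  have h3 : i < m * (i / m + 1) := Nat.lt_mul_div_succ i hm
  have h4 : m * (i / m + 1) ≤ i + m := by
    have := Nat.mul_div_le i m
    rw [Nat.mul_add, Nat.mul_one]
    omega
  have h5 : m * t ≤ m * g := Nat.mul_le_mul_left m ht
  refine ⟨(m * (i / m + 1) - i) + m * t, by omega, ?_⟩
  have e : m * a + i + ((m * (i / m + 1) - i) + m * t) = m * (a + (i / m + 1) + t) := by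
    have e1 : i + (m * (i / m + 1) - i) = m * (i / m + 1) := by omega
    calc m * a + i + ((m * (i / m + 1) - i) + m * t)
        = m * a + (i + (m * (i / m + 1) - i)) + m * t := by ring
      _ = m * a + m * (i / m + 1) + m * t := by rw [e1]
      _ = _ := by ring
  rw [e]
  exact htP

end Pool.Agent.W842.SP
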