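import Pool.Agent.W842.SP.PSyn

/-!
# Recurrence of piecewise syndetic sets along idempotent ultrafilters
-/

set_option autoImplicit false

namespace Pool.Agent.W842.SP

open Combinatorics Hindman

attribute [local instance] Ultrafilter.add Ultrafilter.addSemigroup

/-- the numbers that correspond to the three letters -/
def lett (k : ℕ) : Fin 3 → ℕ := ![0, 1, k]

theorem lett_le (k : ℕ) (j : Fin 3) : lett k j ≤ k + 1 := by
  fin_cases j <;> simp [lett]

theorem recur {P : Set ℕ} (hP : PS P) (q : Ultrafilter ℕ) (hq : q + q = q) (k : ℕ) :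
    ∀ᶠ n in (q : Filter ℕ), PS {a | a ∈ P ∧ a + n ∈ P ∧ a + k * n ∈ P} := by
  classical
  by_contra hcon
  rw [← Ultrafilter.eventually_not] at hcon
  set E : Set ℕ := {n | ¬ PS {a | a ∈ P ∧ a + n ∈ P ∧ a + k * n ∈ P}} with hE
  have hEq : E ∈ q := hcon
  obtain ⟨x, hx⟩ := exists_FS_of_large q hq E hEq
  obtain ⟨g, hg⟩ := hP
  obtain ⟨ι, hι, hHJ⟩ := Line.exists_mono_in_high_dimension (Fin 3) (Fin (g + 1))
  set e : ι → ℕ := fun i => (Fintype.equivFin ι i : ℕ) with he
  have heinj : Function.Injective e := fun i j hij =>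
    (Fintype.equivFin ι).injective (Fin.ext hij)
  set X : ι → ℕ := fun i => x.get (e i) with hX
  set σ : (ι → Fin 3) → ℕ := fun w => ∑ i, lett k (w i) * X i with hσ
  set H : ℕ := ∑ i, (k + 1) * X i with hH
  have hσH : ∀ w, σ w ≤ H := fun w =>
    Finset.sum_le_sum (fun i _ => Nat.mul_le_mul_right _ (lett_le k (w i)))
  set T : Set ℕ := {n | ∀ j ≤ H, ∃ t ≤ g, n + j + t ∈ P} with hT
  have hTPS : PS T := by
    refine ⟨0, fun L => ?_⟩
    obtain ⟨a, ha⟩ := hg (L + H + 1)
    refine ⟨a, fun i hi => ⟨0, le_rfl, ?_⟩⟩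
    intro j hj
    obtain ⟨t, ht, htP⟩ := ha (i + j) (by omega)
    refine ⟨t, ht, ?_⟩
    have e1 : a + i + 0 + j + t = a + (i + j) + t := by ring
    rw [e1]
    exact htP
  set idx : Finset (ℕ × Finset ι) :=
    (Finset.range (H + g + 1)) ×ˢ (Finset.univ.filter (fun J : Finset ι => J.Nonempty)) with hidx
  set Q : ℕ → Set ℕ := fun s => {a | a ∈ P ∧ a + s ∈ P ∧ a + k * s ∈ P} with hQ
  have hcover : T ⊆ ⋃ c ∈ idx, {n | n + c.1 ∈ Q (∑ i ∈ c.2, X i)} := by
    intro n hn
    have hch : ∀ w : ι → Fin 3, ∃ t : Fin (g + 1), n + σ w + t ∈ P := by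
      intro w
      obtain ⟨t, ht, htP⟩ := hn (σ w) (hσH w)
      exact ⟨⟨t, by omega⟩, htP⟩
    choose C hC using hch
    obtain ⟨l, t, hlt⟩ := hHJ C
    set J : Finset ι := Finset.univ.filter (fun i => l.idxFun i = none) with hJ
    have hJne : J.Nonempty := by
      obtain ⟨i, hi⟩ := l.proper
      exact ⟨i, by rw [hJ, Finset.mem_filter]; exact ⟨Finset.mem_univ _, hi⟩⟩
    set b : ℕ := ∑ i ∈ Jᶜ, lett k ((l.idxFun i).getD 0) * X i with hb
    have hsum : ∀ j : Fin 3, σ (l j) = b + lett k j * ∑ i ∈ J, X i := by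
      intro j
      rw [hσ]
      simp only
      rw [← Finset.sum_compl_add_sum J, Finset.mul_sum]
      congr 1
      · apply Finset.sum_congr rfl
        intro i hi
        rw [Finset.mem_compl, hJ, Finset.mem_filter] at hi
        have hi' : l.idxFun i ≠ none := fun h => hi ⟨Finset.mem_univ _, h⟩
        obtain ⟨y, hy⟩ := Option.ne_none_iff_exists'.1 hi'
        rw [Line.apply_def]
        simp only [hy, Option.getD_some]
      · apply Finset.sum_congr rfl
        intro i hi
        rw [hJ, Finset.mem_filter] at hi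
        rw [Line.apply_none l j i hi.2]
    have h0 := hC (l 0)
    have h1 := hC (l 1)
    have h2 := hC (l 2)
    rw [hlt 0, hsum 0] at h0
    rw [hlt 1, hsum 1] at h1
    rw [hlt 2, hsum 2] at h2
    have hbH : b ≤ H := by
      have := hσH (l 0)
      rw [hsum 0] at this
      omega
    rw [Set.mem_iUnion₂]
    refine ⟨(b + t, J), ?_, ?_⟩
    · rw [hidx, Finset.mem_product, Finset.mem_range, Finset.mem_filter]
      have := t.isLt
      exact ⟨by simp only; omega, Finset.mem_univ _, hJne⟩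
    · simp only [lett, Matrix.cons_val_zero, Matrix.cons_val_one, Matrix.cons_val, zero_mul,
        add_zero, one_mul] at h0 h1 h2
      refine ⟨?_, ?_, ?_⟩
      · have e1 : n + (b + (t : ℕ)) = n + b + t := by ring
        simp only
        rw [e1]
        exact h0
      · have e1 : n + (b + (t : ℕ)) + ∑ i ∈ J, X i = n + (b + ∑ i ∈ J, X i) + t := by ring
        simp only
        rw [e1]
        exact h1
      · have e1 : n + (b + (t : ℕ)) + k * ∑ i ∈ J, X i = n + (b + k * ∑ i ∈ J, X i) + t := by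
          ring
        simp only
        rw [e1]
        exact h2
  obtain ⟨c, hc, hcPS⟩ := (hTPS.mono hcover).biUnion
  rw [hidx, Finset.mem_product, Finset.mem_filter] at hc
  have hmem : ∑ i ∈ c.2, X i ∈ FS x := by
    have h1 := FS.finsetSum x (c.2.image e) (hc.2.2.image e)
    rw [Finset.sum_image (fun i _ j _ hij => heinj hij)] at h1
    exact h1
  exact hx hmem hcPS.shift

end Pool.Agent.W842.SP
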