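import Pool.Agent.W842.SP.Main

/-!
# Sums and products in two colours up to a transient set
-/

set_option autoImplicit false

namespace Pool.Agent.W842.SP

open Combinatorics Hindman Filter

attribute [local instance] Ultrafilter.add Ultrafilter.addSemigroup

/-- `S` is transient: there is no sequence `x 0, x 1, ...` (with `j !` dividing `x j`) such that for
every `k` the numbers `n` with `x 0 ⋯ x j * n ∈ S` for all `j < k` form a piecewise syndetic
set. -/
def Transient (S : Set ℕ) : Prop :=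
  ∀ x : ℕ → ℕ, (∀ j, 0 < x j ∧ j.factorial ∣ x j) →
    ∃ k : ℕ, ¬ PS {n | ∀ j < k, (∏ i ∈ Finset.range (j + 1), x i) * n ∈ S}

theorem PS.undilate {E : Set ℕ} {c : ℕ} (hc : 0 < c) (h : PS {n | ∃ a ∈ E, n = c * a}) : PS E := by
  obtain ⟨g, hg⟩ := h
  refine ⟨g, fun L => ?_⟩
  obtain ⟨A, hA⟩ := hg (c * (L + 1))
  refine ⟨A / c + 1, fun i hi => ?_⟩
  have h1 : A < c * (A / c + 1) := Nat.lt_mul_div_succ A hc
  have h2 : c * (A / c) ≤ A := Nat.mul_div_le A c
  have h3 : c * (A / c + 1 + i) = c * (A / c) + c + c * i := by ring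
  have h4 : c * (i + 1) ≤ c * L := Nat.mul_le_mul_left c (by omega)
  have h5 : c * (i + 1) = c * i + c := by ring
  have h6 : c * (L + 1) = c * L + c := by ring
  have h7 : c * (A / c + 1) = c * (A / c) + c := by ring
  obtain ⟨t', ht', e, he, hee⟩ := hA (c * (A / c + 1 + i) - A) (by omega)
  have h8 : A + (c * (A / c + 1 + i) - A) = c * (A / c + 1 + i) := by omega
  rw [h8] at hee
  have h9 : A / c + 1 + i ≤ e := by
    by_contra hcon
    push Not at hcon
    have : c * e < c * (A / c + 1 + i) := Nat.mul_lt_mul_of_pos_left hcon hc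
    omega
  refine ⟨e - (A / c + 1 + i), ?_, ?_⟩
  · have h10 : c * (e - (A / c + 1 + i)) = t' := by
      rw [Nat.mul_sub]; omega
    have h11 : e - (A / c + 1 + i) ≤ c * (e - (A / c + 1 + i)) := Nat.le_mul_of_pos_left _ hc
    omega
  · have h10 : A / c + 1 + i + (e - (A / c + 1 + i)) = e := by omega
    rw [h10]
    exact he

/-- no dilate of `P` meets `S` in a piecewise syndetic set -/
def Free (S P : Set ℕ) : Prop := PS P ∧ ∀ c, 0 < c → ¬ PS {a | a ∈ P ∧ c * a ∈ S}

theorem Free.sub {S P Q : Set ℕ} (hP : Free S P) (hQ : PS Q) (h : Q ⊆ P) : Free S Q := by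
  refine ⟨hQ, fun c hc hcon => hP.2 c hc (hcon.mono ?_)⟩
  rintro a ⟨h1, h2⟩
  exact ⟨h h1, h2⟩

theorem Free.dil {S P : Set ℕ} (hP : Free S P) {c : ℕ} (hc : 0 < c) :
    Free S {n | ∃ a ∈ P, n = c * a} := by
  constructor
  · apply PS.dilate hc
    refine hP.1.mono ?_
    intro a ha
    exact ⟨a, ha, rfl⟩
  · intro d hd hcon
    apply hP.2 (d * c) (by positivity)
    apply PS.undilate hc
    refine hcon.mono ?_
    rintro n ⟨⟨a, ha, rfl⟩, hn⟩
    exact ⟨a, ⟨ha, by rw [mul_assoc]; exact hn⟩, rfl⟩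

/-- a chain built by recursion -/
theorem chain_of {S : Set ℕ} (hS : Transient S) (Good : (ℕ → ℕ) → ℕ → Prop)
    (h0 : ∀ x, Good x 0)
    (hcongr : ∀ x y k, (∀ j < k, x j = y j) → Good x k → Good y k)
    (hstep : ∀ x k, (∀ j < k, 0 < x j ∧ j.factorial ∣ x j) → Good x k →
      ∃ n, 0 < n ∧ Good (Function.update x k (n * k.factorial)) (k + 1))
    (hPS : ∀ x k, Good x k → PS {n | ∀ j < k, (∏ i ∈ Finset.range (j + 1), x i) * n ∈ S}) :
    False := by
  classical
  -- build the sequence as a sequence of functions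
  have hex : ∃ F : ℕ → ℕ → ℕ, (∀ k, (∀ j < k, 0 < F k j ∧ j.factorial ∣ F k j) ∧ Good (F k) k) ∧
      ∀ k, ∀ j < k, F (k + 1) j = F k j := by
    have hst : ∀ f : {f : ℕ × (ℕ → ℕ) // (∀ j < f.1, 0 < f.2 j ∧ j.factorial ∣ f.2 j) ∧
        Good f.2 f.1}, ∃ f' : {f : ℕ × (ℕ → ℕ) // (∀ j < f.1, 0 < f.2 j ∧ j.factorial ∣ f.2 j) ∧
        Good f.2 f.1}, f'.1.1 = f.1.1 + 1 ∧ ∀ j < f.1.1, f'.1.2 j = f.1.2 j := by
      rintro ⟨⟨k, x⟩, h1, h2⟩
      obtain ⟨n, hn, hn'⟩ := hstep x k h1 h2
      refine ⟨⟨⟨k + 1, Function.update x k (n * k.factorial)⟩, ?_, hn'⟩, rfl, ?_⟩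
      · intro j hj
        simp only at hj ⊢
        by_cases hjk : j = k
        · rw [hjk, Function.update_self]
          exact ⟨Nat.mul_pos hn (Nat.factorial_pos k), Dvd.intro_left n rfl⟩
        · rw [Function.update_of_ne hjk]
          exact h1 j (by simp only; omega)
      · intro j hj
        simp only at hj ⊢
        rw [Function.update_of_ne (by omega)]
    choose nxt hnxt1 hnxt2 using hst
    let G : ℕ → {f : ℕ × (ℕ → ℕ) // (∀ j < f.1, 0 < f.2 j ∧ j.factorial ∣ f.2 j) ∧
        Good f.2 f.1} := fun k => Nat.rec ⟨⟨0, fun _ => 0⟩, by simp, h0 _⟩ (fun _ f => nxt f) k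
    have hG1 : ∀ k, (G k).1.1 = k := by
      intro k
      induction k with
      | zero => rfl
      | succ k ih =>
        show (nxt (G k)).1.1 = k + 1
        rw [hnxt1, ih]
    refine ⟨fun k => (G k).1.2, ?_, ?_⟩
    · intro k
      have h := (G k).2
      rw [hG1 k] at h
      exact h
    · intro k j hj
      show (nxt (G k)).1.2 j = (G k).1.2 j
      exact hnxt2 (G k) j (by rw [hG1]; exact hj)
  obtain ⟨F, hF1, hF2⟩ := hex
  have hF3 : ∀ k l j, j < k → F (k + l) j = F k j := by
    intro k l j hj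
    induction l with
    | zero => rfl
    | succ l ih =>
      rw [← Nat.add_assoc, hF2 (k + l) j (by omega), ih]
  set x : ℕ → ℕ := fun j => F (j + 1) j with hx
  have hxF : ∀ k, ∀ j < k, x j = F k j := by
    intro k j hj
    obtain ⟨l, hl⟩ := Nat.exists_eq_add_of_lt hj
    have h := hF3 (j + 1) l j (by omega)
    rw [hx]
    simp only
    rw [← h]
    congr 1
    omega
  obtain ⟨k, hk⟩ := hS x (fun j => by
    have h := (hF1 (j + 1)).1 j (by omega)
    exact h)
  apply hk
  exact hPS x k (hcongr (F k) x k (fun j hj => (hxF k j hj).symm) (hF1 k).2)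

theorem prod_update (x : ℕ → ℕ) (k n j : ℕ) (hj : j < k) :
    ∏ i ∈ Finset.range (j + 1), Function.update x k n i = ∏ i ∈ Finset.range (j + 1), x i := by
  apply Finset.prod_congr rfl
  intro i hi
  have := Finset.mem_range.1 hi
  rw [Function.update_of_ne (by omega)]

theorem prod_update_self (x : ℕ → ℕ) (k n : ℕ) :
    ∏ i ∈ Finset.range (k + 1), Function.update x k n i = (∏ i ∈ Finset.range k, x i) * n := by
  rw [Finset.prod_range_succ, Function.update_self]
  congr 1
  apply Finset.prod_congr rfl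
  intro i hi
  have := Finset.mem_range.1 hi
  rw [Function.update_of_ne (by omega)]

/-- the set of the `n` that follow the chain `x` for `k` steps -/
def Follow (S : Set ℕ) (x : ℕ → ℕ) (k : ℕ) : Set ℕ :=
  {n | ∀ j < k, (∏ i ∈ Finset.range (j + 1), x i) * n ∈ S}

theorem Follow_congr (S : Set ℕ) {x y : ℕ → ℕ} {k : ℕ} (h : ∀ j < k, x j = y j) :
    Follow S x k = Follow S y k := by
  ext n
  unfold Follow
  simp only [Set.mem_ofPred_eq]
  apply forall_congr'
  intro j
  apply imp_congr_right
  intro hj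
  have : ∏ i ∈ Finset.range (j + 1), x i = ∏ i ∈ Finset.range (j + 1), y i := by
    apply Finset.prod_congr rfl
    intro i hi
    have := Finset.mem_range.1 hi
    exact h i (by omega)
  rw [this]

theorem Follow_succ (S : Set ℕ) (x : ℕ → ℕ) (k m : ℕ) :
    Follow S (Function.update x k m) (k + 1) =
      {n | n ∈ Follow S x k ∧ (∏ i ∈ Finset.range k, x i) * m * n ∈ S} := by
  ext n
  unfold Follow
  simp only [Set.mem_ofPred_eq]
  constructor
  · intro h
    refine ⟨fun j hj => ?_, ?_⟩
    · have := h j (by omega)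
      rwa [prod_update x k m j hj] at this
    · have := h k (by omega)
      rwa [prod_update_self] at this
  · rintro ⟨h1, h2⟩ j hj
    by_cases hjk : j = k
    · rw [hjk, prod_update_self]; exact h2
    · rw [prod_update x k m j (by omega)]; exact h1 j (by omega)

/-- an idempotent ultrafilter all of whose dilates avoid `S` -/
theorem exists_idem_avoid {S : Set ℕ} (hS : Transient S) : ∃ p : Ultrafilter ℕ, p + p = p ∧
    (∀ A ∈ p, PS A) ∧ ∀ c, 0 < c → ∀ᶠ w in (p : Filter ℕ), c * w ∉ S := by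
  classical
  obtain ⟨p, hp, hpPS⟩ := exists_idem
  have h1 : ∃ c, 0 < c ∧ ∀ n, 0 < n → ∀ᶠ w in (p : Filter ℕ), n * (c * w) ∉ S := by
    by_contra hcon
    push Not at hcon
    refine chain_of hS (fun x k => Follow S x k ∈ p) ?_ ?_ ?_ ?_
    · intro x
      have : Follow S x 0 = Set.univ := by
        ext n; simp [Follow]
      rw [this]
      exact Filter.univ_mem
    · intro x y k hxy hx
      rw [← Follow_congr S hxy]
      exact hx
    · intro x k hx hxk
      have hpos : 0 < (∏ i ∈ Finset.range k, x i) * k.factorial := by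
        apply Nat.mul_pos _ (Nat.factorial_pos k)
        apply Finset.prod_pos
        intro i hi
        exact (hx i (Finset.mem_range.1 hi)).1
      obtain ⟨n, hn, hn'⟩ := hcon _ hpos
      refine ⟨n, hn, ?_⟩
      rw [Follow_succ]
      filter_upwards [hxk, hn'] with w hw1 hw2
      refine ⟨hw1, ?_⟩
      have e : (∏ i ∈ Finset.range k, x i) * (n * k.factorial) * w =
          n * ((∏ i ∈ Finset.range k, x i) * k.factorial * w) := by ring
      rw [e]
      exact hw2
    · intro x k hxk
      exact hpPS _ hxk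
  obtain ⟨c, hc, hc'⟩ := h1
  refine ⟨p.map (fun n => c * n), idem_dil hp c, ?_, ?_⟩
  · intro A hA
    have h2 : {w | c * w ∈ A} ∈ p := hA
    exact (hpPS _ h2).dilate hc
  · intro n hn
    exact hc' n hn

/-- there is a free set -/
theorem exists_free {S : Set ℕ} (hS : Transient S) : ∃ P, Free S P := by
  classical
  by_contra hcon
  push Not at hcon
  have hcon' : ∀ P, PS P → ∃ c, 0 < c ∧ PS {a | a ∈ P ∧ c * a ∈ S} := by
    intro P hP
    have := hcon P
    unfold Free at this
    push Not at this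
    exact this hP
  refine chain_of hS (fun x k => PS (Follow S x k)) ?_ ?_ ?_ ?_
  · intro x
    have : Follow S x 0 = Set.univ := by
      ext n; simp [Follow]
    rw [this]
    exact PS_univ
  · intro x y k hxy hx
    rw [← Follow_congr S hxy]
    exact hx
  · intro x k hx hxk
    have hpos : 0 < (∏ i ∈ Finset.range k, x i) * k.factorial := by
      apply Nat.mul_pos _ (Nat.factorial_pos k)
      apply Finset.prod_pos
      intro i hi
      exact (hx i (Finset.mem_range.1 hi)).1
    set d := (∏ i ∈ Finset.range k, x i) * k.factorial with hd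
    have h1 : PS {n | ∃ a ∈ Follow S x k, n = d * a} := by
      apply PS.dilate hpos
      refine hxk.mono ?_
      intro a ha
      exact ⟨a, ha, rfl⟩
    obtain ⟨n, hn, hn'⟩ := hcon' _ h1
    refine ⟨n, hn, ?_⟩
    rw [Follow_succ]
    apply PS.undilate hpos
    refine hn'.mono ?_
    rintro b ⟨⟨a, ha, rfl⟩, hb⟩
    refine ⟨a, ⟨ha, ?_⟩, rfl⟩
    have e : (∏ i ∈ Finset.range k, x i) * (n * k.factorial) * a = n * (d * a) := by
      rw [hd]; ring
    rw [e]
    exact hb
  · intro x k hxk
    exact hxk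

end Pool.Agent.W842.SP
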